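import Pool.Agent.Helper83.PT.St7

set_option autoImplicit false

/-! Project PT (helper83), MP_26f0da_lc: MODULE MT. -/

namespace Pool.Agent.Helper83.PT.Helper72

open Pool.Agent.Helper73.DC
open Finset
open scoped Classical

/-- The value of the start state of the counter. -/
theorem stj_lt {c C0 n : ℕ} (h : c * Nat.log 2 n ^ c + c ≤ n + 1 + C0) :
    c * Nat.log 2 n ^ c + c - (n + 1) < C0 + 1 := by omega

/-- Start state. -/
def stt {α : Type} (M : MPDA α) (c C0 : ℕ) (h : ∀ n : ℕ, c * Nat.log 2 n ^ c + c ≤ n + 1 + C0) (n : ℕ) :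
    M.Q × Bool × Fin (C0 + 1) := (M.q0, false, ⟨c * Nat.log 2 n ^ c + c - (n + 1), stj_lt (h n)⟩)

theorem exn_cast {k : ℕ} {X : Type} (p : Fin k → X) (r : X) (i : Fin k) : exn p r i.castSucc = p i := by
  unfold exn
  simp

theorem exn_last {k : ℕ} {X : Type} (p : Fin k → X) (r : X) : exn p r (Fin.last k) = r := by
  unfold exn
  simp

theorem pcd_exn (n k r : ℕ) : pcd n (exn (fun _ : Fin k => 0) r) = r * (n + 2) ^ k := by
  unfold pcd
  rw [Fin.sum_univ_castSucc]
  simp only [exn_cast, exn_last, zero_mul, Finset.sum_const_zero, zero_add, Fin.val_last]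

theorem exn_le {k : ℕ} (n r : ℕ) (hr : r ≤ n + 1) (i : Fin (k + 1)) : exn (fun _ : Fin k => 0) r i ≤ n + 1 := by
  unfold exn
  split_ifs
  · exact Nat.zero_le _
  · exact hr

theorem mMT (hG8 : StG8) (hCN1 : StCN1) (hCN2 : StCN2) (hAS : StAS) (hL1 : StL1) (_hL2 : StL2) (_hL3 : StL3) (_hL4 : StL4)
    (hL5 : StL5) (hL6 : StL6) : StMT := by
  intro α _ M c
  obtain ⟨C0, hC0⟩ := hAS c
  have eT : E2 (α := α) (fun w _ => c * Nat.log 2 w.length ^ c + c) := by
    have h1 : E2 (α := α) (fun w _ => Nat.log 2 w.length) :=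
      (hL5 (fun w _ => w.length) (fun w _ => w.length) (fun w _ => w.length) (fun w _ => w.length) (fun w _ => w.length)
        E2.len E2.len E2.len E2.len E2.len).2.2.2
    exact ((E2.const c).mul (h1.powc c)).add (E2.const c)
  have eN : E2 (α := α) (fun w _ => w.length + 1) := E2.succ _ E2.len
  have main := hG8 (cnt C0 M) c (fun n => stt M c C0 hC0 n)
    (fun n => exn (fun _ => 0) (min (c * Nat.log 2 n ^ c + c) (n + 1))) ?_ ?_ ?_ ?_
  · have heq : {w : List α | AccTurns M w (c * Nat.log 2 w.length ^ c + c)} =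
        {w : List α | ∃ t, AccFrom (cnt C0 M) w (stt M c C0 hC0 w.length)
          (exn (fun _ => 0) (min (c * Nat.log 2 w.length ^ c + c) (w.length + 1))) t} := by
      ext w
      simp only [Set.mem_ofPred_eq]
      constructor
      · rintro ⟨t', ht', u, q, p, s, hq, hr⟩
        obtain ⟨j', P', hP'⟩ := hCN2 C0 M w t' false M.q0 (fun _ => 0) [M.z0] u q p s hr
          ⟨c * Nat.log 2 w.length ^ c + c - (w.length + 1), stj_lt (hC0 w.length)⟩
          (exn (fun _ => 0) (min (c * Nat.log 2 w.length ^ c + c) (w.length + 1)))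
          (fun i => exn_le _ _ (min_le_right _ _) i) (fun i => exn_cast _ _ i) (by
            rw [exn_last]
            show t' ≤ c * Nat.log 2 w.length ^ c + c - (w.length + 1) + min (c * Nat.log 2 w.length ^ c + c) (w.length + 1)
            omega)
        exact ⟨t', u, (q, u, j'), P', s, hq, hP'⟩
      · rintro ⟨t, u, q', p', s', hq', hr⟩
        obtain ⟨h1, h2⟩ := hCN1 C0 M w t false M.q0 ⟨c * Nat.log 2 w.length ^ c + c - (w.length + 1), stj_lt (hC0 w.length)⟩
          (exn (fun _ => 0) (min (c * Nat.log 2 w.length ^ c + c) (w.length + 1))) [M.z0] u q' p' s'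
          (fun i => exn_le _ _ (min_le_right _ _) i) hr
        rw [exn_last] at h2
        have h3 : t + (q'.2.2 : ℕ) + p' (Fin.last M.k) =
          c * Nat.log 2 w.length ^ c + c - (w.length + 1) + min (c * Nat.log 2 w.length ^ c + c) (w.length + 1) := h2
        refine ⟨t, by omega, u, q'.1, fun i => p' i.castSucc, s', hq', ?_⟩
        have h4 : (fun i : Fin M.k => exn (fun _ : Fin M.k => 0)
            (min (c * Nat.log 2 w.length ^ c + c) (w.length + 1)) i.castSucc) = fun _ => 0 := by
          funext i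
          exact exn_cast _ _ i
        rw [h4] at h1
        exact h1
    rw [heq]
    exact main
  · intro g
    have h1 : E2 (α := α) (fun w _ => c * Nat.log 2 w.length ^ c + c - (w.length + 1)) := (hL1 _ _ eT eN).1
    have h2 := (hL6 (fun w _ => c * Nat.log 2 w.length ^ c + c - (w.length + 1))
      (fun w _ => c * Nat.log 2 w.length ^ c + c - (w.length + 1)) (C0 + 1)
      (fun x => if h : x < C0 + 1 then g (M.q0, false, ⟨x, h⟩) else 0) (fun _ _ => 0) h1 h1).1
    have e : (fun (w : List α) (_ : ℕ → ℕ) => g (stt M c C0 hC0 w.length)) =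
        (fun (w : List α) (_ : ℕ → ℕ) => if c * Nat.log 2 w.length ^ c + c - (w.length + 1) < C0 + 1 then
          (fun x => if h : x < C0 + 1 then g (M.q0, false, ⟨x, h⟩) else 0) (c * Nat.log 2 w.length ^ c + c - (w.length + 1)) else 0) := by
      funext w _
      have h := stj_lt (hC0 w.length)
      rw [if_pos h]
      simp only [dif_pos h]
      rfl
    rw [e]
    exact h2
  · have e : (fun (w : List α) (_ : ℕ → ℕ) => pcd w.length (exn (fun _ : Fin M.k => 0)
          (min (c * Nat.log 2 w.length ^ c + c) (w.length + 1)))) =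
        (fun (w : List α) (_ : ℕ → ℕ) => min (c * Nat.log 2 w.length ^ c + c) (w.length + 1) * (w.length + 2) ^ M.k) := by
      funext w _
      exact pcd_exn _ _ _
    have h1 : E2 (α := α) (fun w _ => min (c * Nat.log 2 w.length ^ c + c) (w.length + 1) * (w.length + 2) ^ M.k) :=
      ((hL1 _ _ eT eN).2.1).mul ((E2.succ _ eN).powc M.k)
    rw [← e] at h1
    exact h1
  · intro n j
    exact exn_le _ _ (min_le_right _ _) j
  · rintro w t ⟨u, q', p', s', hq', hr⟩
    obtain ⟨h1, h2⟩ := hCN1 C0 M w t false M.q0 ⟨c * Nat.log 2 w.length ^ c + c - (w.length + 1), stj_lt (hC0 w.length)⟩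
      (exn (fun _ => 0) (min (c * Nat.log 2 w.length ^ c + c) (w.length + 1))) [M.z0] u q' p' s'
      (fun i => exn_le _ _ (min_le_right _ _) i) hr
    rw [exn_last] at h2
    have h3 : t + (q'.2.2 : ℕ) + p' (Fin.last M.k) =
      c * Nat.log 2 w.length ^ c + c - (w.length + 1) + min (c * Nat.log 2 w.length ^ c + c) (w.length + 1) := h2
    omega

end Pool.Agent.Helper83.PT.Helper72
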